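import Pool.Agent.H61.PfB

set_option autoImplicit false

namespace Pool.Agent.Results.MP_41e59c_pr.NotPF

open MeasureTheory

/-- the Gaussian half-factor -/
noncomputable def g (z : ℝ) : ℝ :=
  (2 / Real.pi) ^ (1 / 4 : ℝ) *
    Real.exp (Real.pi ^ 2 / 12 + z - ∫ t in (0 : ℝ)..Real.exp z, Real.log (1 + t) / t)

lemma hasDerivAt_g (z : ℝ) : HasDerivAt g ((1 - Real.log (1 + Real.exp z)) * g z) z := by
  have hz := Real.exp_pos z
  have hm : Measurable fun t : ℝ => Real.log (1 + t) / t := by fun_prop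
  have hi : IntervalIntegrable (fun t : ℝ => Real.log (1 + t) / t) volume 0 (Real.exp z) := by
    rw [intervalIntegrable_iff_integrableOn_Ioc_of_le hz.le]
    refine Measure.integrableOn_of_bounded (M := 1) (by simp) hm.aestronglyMeasurable ?_
    refine (ae_restrict_iff' measurableSet_Ioc).2 (Filter.Eventually.of_forall fun t ht => ?_)
    have h1 : 0 ≤ Real.log (1 + t) := Real.log_nonneg (by linarith [ht.1])
    have h2 := Real.log_le_sub_one_of_pos (by linarith [ht.1] : 0 < 1 + t)
    rw [Real.norm_of_nonneg (div_nonneg h1 ht.1.le), div_le_one ht.1]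
    linarith
  have hc : ContinuousAt (fun t : ℝ => Real.log (1 + t) / t) (Real.exp z) :=
    ((continuousAt_const.add continuousAt_id).log (Pool.Agent.H61.PfB.pos1 z)).div continuousAt_id hz.ne'
  have h1 := (intervalIntegral.integral_hasDerivAt_right hi
    hm.stronglyMeasurable.stronglyMeasurableAtFilter hc).comp z (Real.hasDerivAt_exp z)
  have h2 := ((((hasDerivAt_id z).const_add (Real.pi ^ 2 / 12)).sub h1).exp).const_mul
    ((2 / Real.pi) ^ (1 / 4 : ℝ))
  refine h2.congr_deriv ?_
  have := hz.ne'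
  simp only [g, Pi.sub_apply, id, Function.comp]
  field_simp

theorem result : ∃ (n : ℕ) (x y : Fin n → ℝ), 2 ≤ n ∧ StrictMono x ∧ StrictMono y ∧
    (Matrix.of fun i j => g (x i - y j)).det < 0 := by
  obtain ⟨x, y, hx, hy, h⟩ := Pool.Agent.H61.PfB.main (g := g)
    (fun z => mul_pos (Real.rpow_pos_of_pos (div_pos two_pos Real.pi_pos) _) (Real.exp_pos _))
    hasDerivAt_g
  exact ⟨12, x, y, by norm_num, hx, hy, h⟩

end Pool.Agent.Results.MP_41e59c_pr.NotPF
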